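import Pool.Agent.Helper79.UN.NGoals
import Pool.Agent.Helper79.UN.Lib

/-! # MP_57a173_lc, part N: packet BR2 -/

noncomputable section

namespace UN.PkBR2

open Pool.Agent.Helper97.Ku NU UL UN

variable {L : Type} [CompleteBooleanAlgebra L]

theorem mem_eq_of {X Y S : BSet L} (h : ∀ z : BSet L, z.mem X = z.mem Y) : X.mem S = Y.mem S := by
  have he : X.eq Y = ⊤ := by
    rw [BSet.eq_iff_ext, eq_top_iff]
    refine le_iInf fun z => le_inf ?_ ?_
    · rw [le_himp_iff, top_inf_eq, h z]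
    · rw [le_himp_iff, top_inf_eq, h z]
  apply le_antisymm
  · have := BSet.mem_congr_left X Y S
    rwa [he, top_inf_eq] at this
  · have := BSet.mem_congr_left Y X S
    rwa [BSet.eq_comm', he, top_inf_eq] at this

section Two

variable (s2_ : U_S2) (K : BSet L) (θ : BSet L → BSet L → L)
  (h1 : ∀ x, BSet.Ext (θ x)) (h2 : ∀ y, BSet.Ext (fun x => θ x y))

include s2_ h1 h2

theorem mem_out (z x y : BSet L) : prV z x y ⊓ z.mem (s2 K θ) ≤ θ x y := by
  have h := (s2_ L K θ h1 h2).2.1 x y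
  have h3 : prV z x y ⊓ z.mem (s2 K θ) ≤ apV (s2 K θ) x y := by
    unfold apV
    refine le_trans ?_ (le_iSup _ z)
    rw [inf_comm]
  rw [h] at h3
  exact h3.trans (inf_le_right.trans inf_le_right)

theorem mem_in (z x y : BSet L) : x.mem K ⊓ (y.mem K ⊓ (prV z x y ⊓ θ x y)) ≤
    z.mem (s2 K θ) := by
  rw [(s2_ L K θ h1 h2).1 z]
  exact (le_iSup (fun y => x.mem K ⊓ (y.mem K ⊓ (prV z x y ⊓ θ x y))) y).trans
    (le_iSup (fun x => ⨆ y, x.mem K ⊓ (y.mem K ⊓ (prV z x y ⊓ θ x y))) x)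

theorem mem_le {b : L} (z : BSet L)
    (h : ∀ x y : BSet L, x.mem K ⊓ (y.mem K ⊓ (prV z x y ⊓ θ x y)) ≤ b) :
    z.mem (s2 K θ) ≤ b := by
  rw [(s2_ L K θ h1 h2).1 z]
  exact iSup_le fun x => iSup_le fun y => h x y

end Two

theorem ct1 (K : BSet L) : ∀ x : BSet L, BSet.Ext ((fun _ _ => (⊤ : L)) x) :=
  fun _ => BSet.Ext.const _

theorem ct2 (K : BSet L) : ∀ y : BSet L, BSet.Ext (fun x => (fun _ _ : BSet L => (⊤ : L)) x y) :=
  fun _ => BSet.Ext.const _

theorem mem_cpl (cmp_ : U_CMP) (s2_ : U_S2) (K : BSet L) (θ : BSet L → BSet L → L)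
    (h1 : ∀ x, BSet.Ext (θ x)) (h2 : ∀ y, BSet.Ext (fun x => θ x y)) (z : BSet L) :
    z.mem (cmp (s2 K fun _ _ => ⊤) fun z => (z.mem (s2 K θ))ᶜ) =
      z.mem (s2 K fun x y => (θ x y)ᶜ) := by
  have k1 : ∀ x : BSet L, BSet.Ext (fun y => (θ x y)ᶜ) := fun x => (h1 x).compl
  have k2 : ∀ y : BSet L, BSet.Ext (fun x => (θ x y)ᶜ) := fun y => (h2 y).compl
  rw [(cmp_ L _).1 _ (BSet.Ext.compl (BSet.Ext.mem_left _)) z]
  apply le_antisymm
  · rw [inf_comm, ← le_himp_iff']
    refine mem_le s2_ K (fun _ _ => ⊤) (ct1 K) (ct2 K) z fun x y => ?_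
    rw [le_himp_iff]
    refine le_trans ?_ (mem_in s2_ K _ k1 k2 z x y)
    refine le_inf (inf_le_left.trans inf_le_left) (le_inf (inf_le_left.trans
      (inf_le_right.trans inf_le_left)) (le_inf (inf_le_left.trans
      (inf_le_right.trans (inf_le_right.trans inf_le_left))) ?_))
    rw [le_compl_iff_disjoint_right, disjoint_iff_inf_le]
    have h3 := mem_in s2_ K θ h1 h2 z x y
    have h4 : x.mem K ⊓ (y.mem K ⊓ (prV z x y ⊓ ⊤)) ⊓ (z.mem (s2 K θ))ᶜ ⊓ θ x y ≤
        z.mem (s2 K θ) ⊓ (z.mem (s2 K θ))ᶜ := by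
      refine le_inf (le_trans ?_ h3) (inf_le_left.trans inf_le_right)
      refine le_inf (inf_le_left.trans (inf_le_left.trans inf_le_left))
        (le_inf (inf_le_left.trans (inf_le_left.trans (inf_le_right.trans inf_le_left)))
        (le_inf (inf_le_left.trans (inf_le_left.trans
          (inf_le_right.trans (inf_le_right.trans inf_le_left)))) inf_le_right))
    exact h4.trans (by rw [inf_compl_self])
  · refine mem_le s2_ K _ k1 k2 z fun x y => ?_
    refine le_inf ?_ ?_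
    · refine le_trans ?_ (mem_in s2_ K (fun _ _ => ⊤) (ct1 K) (ct2 K) z x y)
      exact le_inf inf_le_left (le_inf (inf_le_right.trans inf_le_left)
        (le_inf (inf_le_right.trans (inf_le_right.trans inf_le_left)) le_top))
    · rw [le_compl_iff_disjoint_right, disjoint_iff_inf_le]
      have h3 := mem_out s2_ K θ h1 h2 z x y
      have h4 : x.mem K ⊓ (y.mem K ⊓ (prV z x y ⊓ (θ x y)ᶜ)) ⊓ z.mem (s2 K θ) ≤
          θ x y ⊓ (θ x y)ᶜ := by
        refine le_inf (le_trans ?_ h3) (inf_le_left.trans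
          (inf_le_right.trans (inf_le_right.trans inf_le_right)))
        exact le_inf (inf_le_left.trans (inf_le_right.trans (inf_le_right.trans inf_le_left)))
          inf_le_right
      exact h4.trans (by rw [inf_compl_self])

theorem mem_un (cmp_ : U_CMP) (s2_ : U_S2) (K : BSet L) (θ : ℕ → BSet L → BSet L → L)
    (h1 : ∀ n x, BSet.Ext (θ n x)) (h2 : ∀ n y, BSet.Ext (fun x => θ n x y)) (z : BSet L) :
    z.mem (cmp (s2 K fun _ _ => ⊤) fun z => ⨆ n, z.mem (s2 K (θ n))) =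
      z.mem (s2 K fun x y => ⨆ n, θ n x y) := by
  have k1 : ∀ x : BSet L, BSet.Ext (fun y => ⨆ n, θ n x y) := fun x =>
    BSet.Ext.iSup fun n => h1 n x
  have k2 : ∀ y : BSet L, BSet.Ext (fun x => ⨆ n, θ n x y) := fun y =>
    BSet.Ext.iSup fun n => h2 n y
  rw [(cmp_ L _).1 _ (BSet.Ext.iSup fun n => BSet.Ext.mem_left _) z]
  apply le_antisymm
  · refine inf_le_right.trans (iSup_le fun n => ?_)
    refine mem_le s2_ K (θ n) (h1 n) (h2 n) z fun x y => ?_
    refine le_trans ?_ (mem_in s2_ K _ k1 k2 z x y)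
    exact inf_le_inf_left _ (inf_le_inf_left _ (inf_le_inf_left _
      (le_iSup (fun n => θ n x y) n)))
  · refine mem_le s2_ K _ k1 k2 z fun x y => ?_
    refine le_inf ?_ ?_
    · refine le_trans ?_ (mem_in s2_ K (fun _ _ => ⊤) (ct1 K) (ct2 K) z x y)
      exact le_inf inf_le_left (le_inf (inf_le_right.trans inf_le_left)
        (le_inf (inf_le_right.trans (inf_le_right.trans inf_le_left)) le_top))
    · rw [inf_iSup_eq, inf_iSup_eq, inf_iSup_eq]
      refine iSup_mono fun n => ?_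
      exact mem_in s2_ K (θ n) (h1 n) (h2 n) z x y

theorem br2_pf (cmp_ : U_CMP) (s2_ : U_S2) (ex2 : U_EX2) (sg : U_SG) (bas : U_BAS)
    (rec_ : U_REC) : U_BR2 := by
  intro L _ J v K A W
  unfold isBor2V
  rw [eq_top_iff]
  refine le_iInf fun S => ?_
  rw [le_himp_iff, top_inf_eq, le_himp_iff]
  obtain ⟨-, -, -, -, -, hE, -, -⟩ := ex2 L J v K A
  set R : L := ⨅ P : BSet L, ⨅ Q : BSet L, ⨅ Z : BSet L,
      (isBorV omN K A P ⇨ (isBorV omN K A Q ⇨ (isRecV P Q Z ⇨ Z.mem S))) with hR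
  have rect : ∀ P Q Z : BSet L, isBorV omN K A P = ⊤ → isBorV omN K A Q = ⊤ →
      isRecV P Q Z = ⊤ → R ≤ Z.mem S := by
    intro P Q Z a b c
    refine (iInf_le _ P).trans ((iInf_le _ Q).trans ((iInf_le _ Z).trans ?_))
    rw [a, b, c, top_himp, top_himp, top_himp]
  obtain ⟨b1, b2, -⟩ := bas L K A
  obtain ⟨r1, r2, r3⟩ := rec_ L K A S
  have sgD := sg L (s2 K fun _ _ => ⊤) S
  induction W with
  | atom j =>
    rcases j with (n | n) | j
    · exact inf_le_right.trans (rect _ _ _ (b2 n) b1 (r1 n))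
    · exact inf_le_right.trans (rect _ _ _ b1 (b2 n) (r2 n))
    · exact inf_le_left.trans (r3 (v j))
  | neg c ih =>
    have h1 := fun x => (hE c x).1
    have h2 := fun y => (hE c y).2
    have h3 := mem_eq_of (S := S) (mem_cpl cmp_ s2_ K (bdV v A c) h1 h2)
    have h4 : (s2 K (bdV v A (PF.neg c))) = s2 K fun x y => (bdV v A c x y)ᶜ := rfl
    rw [h4, ← h3]
    exact le_trans (le_inf inf_le_left ih) (sgD.2.1 _)
  | or c ih =>
    have h1 := fun n x => (hE (c n) x).1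
    have h2 := fun n y => (hE (c n) y).2
    have h3 := mem_eq_of (S := S) (mem_un cmp_ s2_ K (fun n => bdV v A (c n)) h1 h2)
    have h4 : (s2 K (bdV v A (PF.or c))) = s2 K fun x y => ⨆ n, bdV v A (c n) x y := rfl
    rw [h4, ← h3]
    exact le_trans (le_inf inf_le_left (le_iInf fun n => ih n)) (sgD.2.2 _)

end UN.PkBR2
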